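import Mathlib
import Pool.Agent.Helper92.PO.Stmts

namespace Pool.Agent.Helper92.PO

theorem run_beq2 (a b : Bool) : beq2 a b = true ↔ (a = true ↔ b = true) := by
  cases a <;> cases b <;> simp [beq2]

theorem run_Vc0 {v : Lab} (h : v.1 = 0) : Vc (0, 0) v = true := by
  simp [Vc, sm, par, h]

theorem run_Hc0 {v : Lab} (h : v.1 = 0) : Hc (0, 0) v = true := by
  simp [Hc, sm, par, h]

theorem run_st1 (w : ℕ) (g : ℕ → Lab) (i : ℕ) :
    (stAt w g i).1 = if i = 0 then (0, 0) else g (i - 1) := rfl

/-- the conditions at a cell -/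
def run_A (n σ : ℕ) (ξ : Row) (f : ℕ → ℕ → Lab) (k u : ℕ) : Prop :=
  ((f k u).1 = 1 ↔ (k / LL n * wd n + u = σ + 1 ∧ k % LL n = n + 1)) ∧
  (mustEmpty n σ (k / LL n * wd n + u) (k % LL n) = true → (f k u).1 = 0) ∧
  (u + 1 = wd n → f k u = lk ξ k) ∧
  Vc (if k = 0 then (0, 0) else f (k - 1) u) (f k u) = true ∧
  Hc (if u = 0 then (if k / LL n = 0 then (0, 0) else lk ξ (k - LL n)) else f k (u - 1))
    (f k u) = true

theorem run_LL (n : ℕ) : 0 < LL n := by
  unfold LL
  omega

theorem run_wd (n : ℕ) : 0 < wd n := by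
  unfold wd
  omega

theorem run_allowed (hS : ST_STA) (n σ : ℕ) (ξ : Row) (g : ℕ → Lab) (k u : ℕ) (hu : u < wd n) :
    allowed n σ ξ (k / LL n, k % LL n, u) (stAt (wd n) g (k * wd n + u)) (g (k * wd n + u)) = true ↔
      run_A n σ ξ (fun k u => g (k * wd n + u)) k u := by
  have hw := run_wd n
  have hL := run_LL n
  have h1 := ((hS (wd n) g hw).2 (k * wd n + u)).2
  have e1 : (hd (stAt (wd n) g (k * wd n + u)).2).1 =
      if k = 0 then (0, 0) else g ((k - 1) * wd n + u) := by
    rw [h1]
    by_cases hk : k = 0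
    · subst hk
      simp [hu]
    · obtain ⟨k', rfl⟩ : ∃ k', k = k' + 1 := ⟨k - 1, by omega⟩
      have e2 : ¬ ((k' + 1) * wd n + u < wd n) := by
        rw [add_mul, one_mul]
        omega
      have e3 : (k' + 1) * wd n + u - wd n = k' * wd n + u := by
        rw [add_mul, one_mul]
        omega
      simp [e2, e3]
  have e2 : k / LL n * LL n + k % LL n = k := Nat.div_add_mod' k (LL n)
  have e3 : (if u = 0 then (if k / LL n = 0 then ((0, 0) : Lab) else
        lk ξ ((k / LL n - 1) * LL n + k % LL n)) else (stAt (wd n) g (k * wd n + u)).1) =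
      if u = 0 then (if k / LL n = 0 then (0, 0) else lk ξ (k - LL n)) else
        g (k * wd n + (u - 1)) := by
    by_cases hu0 : u = 0
    · rw [if_pos hu0, if_pos hu0]
      by_cases hk : k / LL n = 0
      · rw [if_pos hk, if_pos hk]
      · rw [if_neg hk, if_neg hk]
        congr 1
        obtain ⟨j, hj⟩ : ∃ j, k / LL n = j + 1 := Nat.exists_eq_succ_of_ne_zero hk
        rw [hj, Nat.add_sub_cancel]
        rw [hj, add_mul, one_mul] at e2
        omega
    · rw [if_neg hu0, if_neg hu0, run_st1, if_neg (by omega)]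
      congr 1
      omega
  unfold allowed run_A
  simp only [Bool.and_eq_true, Bool.or_eq_true, Bool.not_eq_true', run_beq2, decide_eq_true_eq,
    decide_eq_false_iff_not]
  rw [e1, e2, e3]
  constructor
  · rintro ⟨a1, a2, a3, a4, a5⟩
    refine ⟨⟨fun h => a1.2 h, fun h => a1.1 h⟩, fun h => ?_, fun h => ?_, a4, a5⟩
    · rcases a2 with h' | h'
      · rw [h] at h'
        exact absurd h' (by simp)
      · exact h'
    · rcases a3 with h' | h'
      · exact absurd h h'
      · exact h'
  · rintro ⟨a1, a2, a3, a4, a5⟩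
    refine ⟨⟨fun h => a1.2 h, fun h => a1.1 h⟩, ?_, ?_, a4, a5⟩
    · by_cases h : mustEmpty n σ (k / LL n * wd n + u) (k % LL n) = true
      · exact Or.inr (a2 h)
      · exact Or.inl (by simpa using h)
    · by_cases h : u + 1 = wd n
      · exact Or.inr (a3 h)
      · exact Or.inl h

theorem run_loc (n σ : ℕ) (ξ : Row) (f : ℕ → ℕ → Lab) :
    (∀ k < KK n, ∀ u < wd n, run_A n σ ξ f k u) ↔
      Loc n σ f ∧ ∀ k < KK n, lk ξ k = f k (wd n - 1) := by
  have hw := run_wd n
  have hL := run_LL n
  constructor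
  · intro h
    have hrow : ∀ k < KK n, lk ξ k = f k (wd n - 1) := fun k hk =>
      ((h k hk (wd n - 1) (by omega)).2.2.1 (by omega)).symm
    refine ⟨⟨fun k hk u hu => ⟨(h k hk u hu).1, (h k hk u hu).2.1⟩, fun k hk u hu => ?_,
      fun k hk u hu => ?_, fun k hk => ?_⟩, hrow⟩
    · have h1 := (h (k + 1) hk u hu).2.2.2.1
      simpa using h1
    · have h1 := (h k hk (u + 1) hu).2.2.2.2
      simpa using h1
    · have h1 := (h (k + LL n) hk 0 hw).2.2.2.2
      have h5 : ¬ ((k + LL n) / LL n = 0) := by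
        rw [Nat.add_div_right _ hL]
        exact Nat.succ_ne_zero _
      rw [if_pos rfl, if_neg h5, Nat.add_sub_cancel, hrow k (by omega)] at h1
      exact h1
  · rintro ⟨⟨h1, h2, h3, h4⟩, hrow⟩ k hk u hu
    refine ⟨(h1 k hk u hu).1, (h1 k hk u hu).2, fun h => ?_, ?_, ?_⟩
    · rw [hrow k hk]
      congr 1
      omega
    · by_cases hk0 : k = 0
      · rw [if_pos hk0]
        apply run_Vc0
        apply (h1 k hk u hu).2
        subst hk0
        simp [mustEmpty]
      · rw [if_neg hk0]
        have := h2 (k - 1) (by omega) u hu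
        rwa [Nat.sub_add_cancel (by omega)] at this
    · by_cases hu0 : u = 0
      · subst hu0
        rw [if_pos rfl]
        by_cases hk0 : k / LL n = 0
        · rw [if_pos hk0]
          apply run_Hc0
          apply (h1 k hk 0 hu).2
          rw [hk0]
          simp [mustEmpty]
        · rw [if_neg hk0]
          have h5 : LL n ≤ k := by
            by_contra h6
            exact hk0 (Nat.div_eq_of_lt (by omega))
          rw [hrow (k - LL n) (by omega)]
          have := h4 (k - LL n) (by omega)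
          rwa [Nat.sub_add_cancel h5] at this
      · rw [if_neg hu0]
        have := h3 k hk (u - 1) (by omega)
        rwa [Nat.sub_add_cancel (by omega)] at this

theorem st_RUN (hO : ST_OKR) (hC : ST_CEL) (hS : ST_STA) (hA : ST_ACS) : ST_RUN := by
  intro n σ ξ vs hσ
  have hw := run_wd n
  rw [hO n σ ξ vs, (hC n).1, hA n σ (fun i => vs.getD i (0, 0)) hσ]
  have hcell : (∀ i z, (cells n)[i]? = some z →
      allowed n σ ξ z (stAt (wd n) (fun i => vs.getD i (0, 0)) i) (vs.getD i (0, 0)) = true) ↔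
      ∀ k < KK n, ∀ u < wd n, run_A n σ ξ (fun2 n vs) k u := by
    constructor
    · intro h k hk u hu
      have h1 := h (k * wd n + u) _ ((hC n).2 k hk u hu)
      exact (run_allowed hS n σ ξ (fun i => vs.getD i (0, 0)) k u hu).1 h1
    · intro h i z hz
      have hi : i < KK n * wd n := by
        by_contra hi
        rw [← (hC n).1] at hi
        rw [List.getElem?_eq_none (by omega)] at hz
        exact absurd hz (by simp)
      have hk : i / wd n < KK n := by
        rw [Nat.div_lt_iff_lt_mul hw]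
        exact hi
      have hu : i % wd n < wd n := Nat.mod_lt _ hw
      have hiu : i / wd n * wd n + i % wd n = i := Nat.div_add_mod' i (wd n)
      have h1 := (hC n).2 _ hk _ hu
      rw [hiu, hz] at h1
      have h2 := (run_allowed hS n σ ξ (fun i => vs.getD i (0, 0)) (i / wd n) (i % wd n) hu).2
        (h _ hk _ hu)
      rw [hiu] at h2
      rw [Option.some.injEq] at h1
      rw [h1]
      exact h2
  rw [hcell, run_loc]
  constructor
  · rintro ⟨a, ⟨b, c⟩, d⟩
    exact ⟨a, ⟨b, d⟩, c⟩
  · rintro ⟨a, ⟨b, d⟩, c⟩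
    exact ⟨a, ⟨b, c⟩, d⟩

end Pool.Agent.Helper92.PO
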